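import Pool.Agent.Work.MP_e17eac_co.Bd.B06
import Pool.Agent.Work.MP_e17eac_co.Defs

/-!
# Statements, block 4: assembly of the inequalities, main theorem, point sets
-/

namespace Pool.Agent.Work.MP_e17eac_co.DH

open Finset

/-! ### Assembly -/

/-- The error term `e`. -/
noncomputable def eL (Λ W : ℝ) (Q J : ℕ) : ℝ :=
  30 + 13 * Real.log Λ + 3 * Real.log W + Real.log (3 + J * Real.log Q)

/-- Hypotheses of the assembly (the level `J` is the first one with at least `Q^69000` cells). -/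
structure Asm {ι : Type} [Fintype ι] [DecidableEq ι] (K : KSys ι) (m : ℝ) (Q J : ℕ)
    (E : Finset ℕ) (Λ : ℝ) (D : Bool → ℕ → ℝ) (W : ℝ) : Prop where
  hm : 2 ≤ m
  sep : K.Sep m
  hQ : 2 ≤ Q
  reg : Reg K Q J E Λ D
  hW : 1 ≤ W
  big : m ^ ((4 : ℝ) / 3) ≤ W * E.card
  he : 10 * eL Λ W Q J ≤ Real.log Q
  hJ : J * (2 * Real.log Λ + 2) ≤ Real.log Q
  hmQ : 500000 * Real.log Q ≤ Real.log m
  top : (PM K Q E J : ℝ) ≤ (Q : ℝ) ^ 69001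

/-- Logarithm of the number of active cells. -/
noncomputable def lM {ι : Type} [Fintype ι] [DecidableEq ι] (K : KSys ι) (Q : ℕ) (E : Finset ℕ)
    (j : ℕ) : ℝ := Real.log (PM K Q E j)

/-- Logarithm of the number of pairs (cell, line) divided by `m`. -/
noncomputable def lA {ι : Type} [Fintype ι] [DecidableEq ι] (K : KSys ι) (m : ℝ) (Q : ℕ)
    (E : Finset ℕ) (s : Bool) (j : ℕ) : ℝ := Real.log (PL K Q E s j) - Real.log m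

/-- Logarithm of the number of pairs (cell, token) divided by `m`. -/
noncomputable def lT {ι : Type} [Fintype ι] [DecidableEq ι] (K : KSys ι) (m : ℝ) (Q : ℕ)
    (E : Finset ℕ) (p : Bool) (j : ℕ) : ℝ := Real.log (PT K Q E p j) - Real.log m

/-- `- log` of the displacement class. -/
noncomputable def lD (D : Bool → ℕ → ℝ) (p : Bool) (j : ℕ) : ℝ := - Real.log (D p j)

/-- Basic consequences of `Asm`: sizes. -/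
def StA0 : Prop := ∀ (ι : Type) [Fintype ι] [DecidableEq ι] (K : KSys ι) (m : ℝ) (Q J : ℕ)
  (E : Finset ℕ) (Λ : ℝ) (D : Bool → ℕ → ℝ) (W : ℝ), Asm K m Q J E Λ D W →
  0 < Real.log Q ∧ 0 ≤ Real.log Λ ∧ 0 ≤ Real.log W ∧ 0 ≤ Real.log (3 + J * Real.log Q) ∧
  (∀ j, j ≤ J → 1 ≤ PM K Q E j ∧ (PM K Q E j : ℝ) ≤ (Q : ℝ) ^ 69001 ∧
    lM K Q E j ≤ 69001 * Real.log Q ∧ 0 ≤ lM K Q E j) ∧
  (∀ s j, j ≤ J → 1 ≤ PL K Q E s j ∧ lA K m Q E s j ≤ 1 + 69001 * Real.log Q) ∧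
  (∀ p j, j ≤ J → 1 ≤ PT K Q E p j) ∧
  (∀ p j, j ≤ J → 0 < D p j ∧ 0 ≤ lD D p j ∧ 1 ≤ 2 * m * D p j)

/-- Monotonicity, increments, upper bounds at level 0, flux. -/
def StA1 : Prop := ∀ (ι : Type) [Fintype ι] [DecidableEq ι] (K : KSys ι) (m : ℝ) (Q J : ℕ)
  (E : Finset ℕ) (Λ : ℝ) (D : Bool → ℕ → ℝ) (W : ℝ), Asm K m Q J E Λ D W →
  lM K Q E 0 ≤ eL Λ W Q J ∧ (∀ s, lA K m Q E s 0 ≤ eL Λ W Q J) ∧
  (∀ i j, i ≤ j → j ≤ J → lM K Q E i ≤ lM K Q E j) ∧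
  (∀ s i j, i ≤ j → j ≤ J → lA K m Q E s i ≤ lA K m Q E s j) ∧
  (∀ p i j, i ≤ j → j ≤ J → lT K m Q E p i ≤ lT K m Q E p j) ∧
  (∀ p i j, i ≤ j → j ≤ J → lD D p i ≤ lD D p j + eL Λ W Q J) ∧
  (∀ j, j < J → lM K Q E (j + 1) ≤ lM K Q E j + Real.log Q) ∧
  (∀ s j, j < J → lA K m Q E s (j + 1) ≤ lA K m Q E s j + Real.log Q) ∧
  (∀ p j, j < J → lT K m Q E p (j + 1) ≤ lT K m Q E p j + Real.log Q) ∧
  (∀ p j, j ≤ J → lT K m Q E p j ≤ lD D p j + eL Λ W Q J)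

/-- Dey's bound in logarithmic form. -/
def StA2 : Prop := ∀ (ι : Type) [Fintype ι] [DecidableEq ι] (K : KSys ι) (m : ℝ) (Q J : ℕ)
  (E : Finset ℕ) (Λ : ℝ) (D : Bool → ℕ → ℝ) (W : ℝ), Asm K m Q J E Λ D W →
  (∀ s, -eL Λ W Q J ≤ lA K m Q E s 0) ∧ (∀ p, -eL Λ W Q J ≤ lT K m Q E p 0) ∧
  (∀ j, j ≤ J → lM K Q E j ≤ lA K m Q E false j + lA K m Q E true j + lT K m Q E false j +
    lT K m Q E true j + eL Λ W Q J)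

/-- Counting with all distances in logarithmic form. -/
def StA3 : Prop := ∀ (ι : Type) [Fintype ι] [DecidableEq ι] (K : KSys ι) (m : ℝ) (Q J : ℕ)
  (E : Finset ℕ) (Λ : ℝ) (D : Bool → ℕ → ℝ) (W : ℝ), Asm K m Q J E Λ D W →
  (∀ s j, j ≤ J → 2 * lA K m Q E s j ≤ lM K Q E j - min (lD D false j) (lD D true j) +
    eL Λ W Q J) ∧
  (∀ p j, j ≤ J → 2 * lT K m Q E p j ≤ lM K Q E j - min (lD D false j) (lD D true j) +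
    eL Λ W Q J)

/-- Far pairs in logarithmic form. -/
def StA4 : Prop := ∀ (ι : Type) [Fintype ι] [DecidableEq ι] (K : KSys ι) (m : ℝ) (Q J : ℕ)
  (E : Finset ℕ) (Λ : ℝ) (D : Bool → ℕ → ℝ) (W : ℝ), Asm K m Q J E Λ D W →
  ∀ (s : Bool) (i j : ℕ), i ≤ j → j ≤ J → lA K m Q E s 0 + 5 * Real.log Q ≤ lA K m Q E s i →
  ∀ (E2 : Finset ℕ) (θ Δ : ℝ), E2 ⊆ E → 1 ≤ θ * (4 * Q ^ 2) → θ ≤ 1 → θ * E.card ≤ E2.card →
  1 ≤ 2 * m * Δ → Δ ≤ 24 * Q * Λ ^ 2 * Real.exp (eL Λ W Q J) →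
  (∀ n ∈ E2, ∀ n' ∈ E2, K.cell Q j n = K.cell Q j n' →
    K.FlatP Q j (K.cell Q j n) Δ (K.ln s n) (K.ln s n')) →
  2 * lA K m Q E s j ≤ 2 * lM K Q E j + 2 * Real.log Δ - ((j : ℝ) - i) * Real.log Q -
    5 * Real.log θ + 10 * Real.log Λ + 8

/-- Far pairs: flatness by the larger displacement, token branching, line branching. -/
def StA5 : Prop := ∀ (ι : Type) [Fintype ι] [DecidableEq ι] (K : KSys ι) (m : ℝ) (Q J : ℕ)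
  (E : Finset ℕ) (Λ : ℝ) (D : Bool → ℕ → ℝ) (W : ℝ), Asm K m Q J E Λ D W →
  (∀ s i j, i ≤ j → j ≤ J → lA K m Q E s 0 + 5 * Real.log Q ≤ lA K m Q E s i →
    lA K m Q E s j ≤ lM K Q E j - min (lD D false j) (lD D true j) -
      ((j : ℝ) - i) * Real.log Q / 2 + eL Λ W Q J) ∧
  (∀ s p i j, i ≤ j → j < J → lA K m Q E s 0 + 5 * Real.log Q ≤ lA K m Q E s i →
    lT K m Q E p j + (2 * Real.log Λ + Real.log 3) < lT K m Q E p (j + 1) →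
    lA K m Q E s j ≤ lM K Q E j - lD D p j - ((j : ℝ) - i) * Real.log Q / 2 + 7 * Real.log Q) ∧
  (∀ s q i j, i ≤ j → j < J → lA K m Q E s 0 + 5 * Real.log Q ≤ lA K m Q E s i →
    lA K m Q E q j + (2 * Real.log Λ + Real.log 3) < lA K m Q E q (j + 1) →
    lA K m Q E s j ≤ lM K Q E j - max (lD D false j) (lD D true j) -
      ((j : ℝ) - i) * Real.log Q / 2 + 7 * Real.log Q)

/-- Far pairs: flatness by the displacement of the start tokens. -/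
def StA6 : Prop := ∀ (ι : Type) [Fintype ι] [DecidableEq ι] (K : KSys ι) (m : ℝ) (Q J : ℕ)
  (E : Finset ℕ) (Λ : ℝ) (D : Bool → ℕ → ℝ) (W : ℝ), Asm K m Q J E Λ D W →
  ∀ s i j, i ≤ j → j < J → lA K m Q E s 0 + 5 * Real.log Q ≤ lA K m Q E s i →
    lA K m Q E s j + (2 * Real.log Λ + Real.log 3) < lA K m Q E s (j + 1) →
    2 * lA K m Q E s j ≤ lM K Q E j - ((j : ℝ) - i) * Real.log Q / 2 + 7 * Real.log Q

/-- Slots in logarithmic form. -/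
def StA7 : Prop := ∀ (ι : Type) [Fintype ι] [DecidableEq ι] (K : KSys ι) (m : ℝ) (Q J : ℕ)
  (E : Finset ℕ) (Λ : ℝ) (D : Bool → ℕ → ℝ) (W : ℝ), Asm K m Q J E Λ D W →
  ∀ s i j l, i ≤ j → j ≤ l → l ≤ J → lA K m Q E s 0 + 5 * Real.log Q ≤ lA K m Q E s i →
    ((j : ℝ) - i) * Real.log Q + min (lD D false j) (lD D true j) ≤ lD D false l →
    (lT K m Q E false l - lD D false l) - lT K m Q E false j + ((j : ℝ) - i) * Real.log Q +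
      min (lD D false j) (lD D true j) ≤
      -min (lD D false j) (lD D true j) + lM K Q E j - lA K m Q E s j + eL Λ W Q J

/-! ### Main theorem for sweeps -/

/-- Asymptotics. -/
def StAsy : Prop := ∀ ε : ℝ, 0 < ε → ∃ m0 : ℝ, 100 ≤ m0 ∧ ∀ m, m0 ≤ m →
  1 ≤ ε * Real.log m ∧ Real.log (1 + Real.log m) ≤ ε * Real.log m

/-- The regularity constant. -/
noncomputable def LL (m : ℝ) (J : ℕ) : ℝ := 40 * (J + 1) * (8 * (1 + Real.log m)) ^ (7 * (J + 1))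

/-- Regular subset with many cells at the last level. -/
def StMid : Prop := ∀ (ι : Type) [Fintype ι] [DecidableEq ι] (K : KSys ι) (m H ρ : ℝ)
  (Q J : ℕ) (E : Finset ℕ), 2 ≤ m → K.Sep m → 2 ≤ Q → E.Nonempty → 0 < H →
  (∀ n ∈ E, n < K.N ∧ 0 ≤ K.t n ∧ K.t n < 1 ∧ ((K.vis (K.t n) ρ).card : ℝ) < H) →
  1 ≤ ρ * (Q : ℝ) ^ J →
  ∃ E' ⊆ E, ∃ D : Bool → ℕ → ℝ, Reg K Q J E' (LL m J) D ∧
    (E.card : ℝ) ≤ LL m J * E'.card ∧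
    (E'.card : ℝ) ≤ 16 * H ^ ((4 : ℝ) / 3) * PM K Q E' J

/-- Large `m`. -/
def StMainL : Prop := ∃ m0 : ℝ, 1 ≤ m0 ∧ ∀ (ι : Type) [Fintype ι] [DecidableEq ι] (K : KSys ι)
  (m : ℝ), m0 ≤ m → K.Sep m → (K.N : ℝ) ≤ m ^ ((4 : ℝ) / 3 - 1 / 10 ^ 9)

/-- The trivial bound. -/
def StTriv : Prop := ∀ (ι : Type) [Fintype ι] [DecidableEq ι] (K : KSys ι) (m : ℝ), 0 < m →
  K.Sep m → (K.N : ℝ) ≤ (m + 1) ^ 2

/-! ### Point sets -/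

/-- General position: no three distinct points of `P` are collinear. -/
def GenPos (P : Finset (ℝ × ℝ)) : Prop :=
  ∀ p ∈ P, ∀ q ∈ P, ∀ r ∈ P, p ≠ q → p ≠ r → q ≠ r → side p q r ≠ 0

open Classical in
/-- The `k`-edges of a finite planar point set `P`: the two-element subsets `{p, q}` of `P` such
that the line through `p` and `q` has exactly `k` points of `P` strictly on one side and the
remaining `|P| - 2 - k` points of `P` strictly on the other side. -/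
noncomputable def kEdges (P : Finset (ℝ × ℝ)) (k : ℕ) : Finset (Finset (ℝ × ℝ)) :=
  (P.powersetCard 2).filter fun e => ∃ p q : ℝ × ℝ, e = {p, q} ∧ IsKEdge P k p q

open Classical in
/-- Main theorem for point sets with separated abscissae, ordered pairs. -/
def StLev : Prop := ∃ C : ℝ, 0 < C ∧ ∀ (P : Finset (ℝ × ℝ)) (m w : ℝ), 1 ≤ m → 0 < w →
  GenPos P → (∀ p ∈ P, ∀ q ∈ P, p ≠ q → w ≤ |p.1 - q.1| ∧ |p.1 - q.1| ≤ m * w) →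
  ∀ (k : ℕ) (T : Finset ((ℝ × ℝ) × (ℝ × ℝ))), (∀ e ∈ T, e.1 ∈ P ∧ e.2 ∈ P ∧ e.1.1 < e.2.1 ∧
    (P.filter fun r => side e.1 e.2 r < 0).card = k) →
  (T.card : ℝ) ≤ C * m ^ ((4 : ℝ) / 3 - 1 / 10 ^ 9)

/-- Result (i). -/
def StResI : Prop := ∃ C : ℝ, 0 < C ∧ ∀ (P : Finset (ℝ × ℝ)) (m w : ℝ), 1 ≤ m → 0 < w →
  GenPos P → (∀ p ∈ P, ∀ q ∈ P, p ≠ q → w ≤ |p.1 - q.1| ∧ |p.1 - q.1| ≤ m * w) →
  ∀ k : ℕ, ((kEdges P k).card : ℝ) ≤ C * m ^ ((4 : ℝ) / 3 - 1 / 10 ^ 9)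

/-- Edges with nearly the same direction. -/
def StWin : Prop := ∃ C : ℝ, 0 < C ∧ ∀ (P : Finset (ℝ × ℝ)) (R : ℝ), 1 ≤ R → GenPos P →
  (∀ p ∈ P, ∀ q ∈ P, p ≠ q → 1 ≤ (p.1 - q.1) ^ 2 + (p.2 - q.2) ^ 2 ∧
    (p.1 - q.1) ^ 2 + (p.2 - q.2) ^ 2 ≤ R ^ 2) →
  ∀ (k : ℕ) (T : Finset ((ℝ × ℝ) × (ℝ × ℝ))), (∀ e ∈ T, IsKEdge P k e.1 e.2 ∧
    e.1.1 < e.2.1 ∧ 0 ≤ e.2.2 - e.1.2 ∧ 8 * R * (e.2.2 - e.1.2) ≤ e.2.1 - e.1.1) →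
  (T.card : ℝ) ≤ C * R ^ ((4 : ℝ) / 3 - 1 / 10 ^ 9)

/-- Rotation by the angle `-θ`. -/
noncomputable def rt (θ : ℝ) (p : ℝ × ℝ) : ℝ × ℝ :=
  (Real.cos θ * p.1 + Real.sin θ * p.2, -(Real.sin θ) * p.1 + Real.cos θ * p.2)

open Classical in
/-- Rotations preserve everything. -/
def StRot : Prop := ∀ (θ : ℝ), Function.Injective (rt θ) ∧
  (∀ p q r, side (rt θ p) (rt θ q) (rt θ r) = side p q r) ∧
  (∀ p q : ℝ × ℝ, ((rt θ p).1 - (rt θ q).1) ^ 2 + ((rt θ p).2 - (rt θ q).2) ^ 2 =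
    (p.1 - q.1) ^ 2 + (p.2 - q.2) ^ 2) ∧
  (∀ (P : Finset (ℝ × ℝ)), GenPos P → GenPos (P.image (rt θ))) ∧
  (∀ (P : Finset (ℝ × ℝ)) (k : ℕ) (p q : ℝ × ℝ), IsKEdge P k p q →
    IsKEdge (P.image (rt θ)) k (rt θ p) (rt θ q))

/-- Every direction is covered by one of `64 R` rotation angles. -/
def StDir : Prop := ∀ (R : ℝ) (p q : ℝ × ℝ), 1 ≤ R → p ≠ q → ∃ i : ℕ, (i : ℝ) ≤ 64 * R ∧
  (rt ((i : ℝ) / (10 * R)) p).1 < (rt ((i : ℝ) / (10 * R)) q).1 ∧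
  0 ≤ (rt ((i : ℝ) / (10 * R)) q).2 - (rt ((i : ℝ) / (10 * R)) p).2 ∧
  8 * R * ((rt ((i : ℝ) / (10 * R)) q).2 - (rt ((i : ℝ) / (10 * R)) p).2) ≤
    (rt ((i : ℝ) / (10 * R)) q).1 - (rt ((i : ℝ) / (10 * R)) p).1

/-- Unit separated sets, ordered pairs. -/
def StIIo : Prop := ∃ C : ℝ, 0 < C ∧ ∀ (P : Finset (ℝ × ℝ)) (R : ℝ), 1 ≤ R → GenPos P →
  (∀ p ∈ P, ∀ q ∈ P, p ≠ q → 1 ≤ (p.1 - q.1) ^ 2 + (p.2 - q.2) ^ 2 ∧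
    (p.1 - q.1) ^ 2 + (p.2 - q.2) ^ 2 ≤ R ^ 2) →
  ∀ (k : ℕ) (T : Finset ((ℝ × ℝ) × (ℝ × ℝ))), (∀ e ∈ T, IsKEdge P k e.1 e.2) →
  (T.card : ℝ) ≤ C * R ^ ((7 : ℝ) / 3 - 1 / 10 ^ 9)

/-- Result (ii). -/
def StResII : Prop := ∃ C : ℝ, 0 < C ∧ ∀ (P : Finset (ℝ × ℝ)) (R d : ℝ), 1 ≤ R → 0 < d →
  GenPos P → (∀ p ∈ P, ∀ q ∈ P, p ≠ q → d ≤ Real.sqrt ((p.1 - q.1) ^ 2 + (p.2 - q.2) ^ 2) ∧
    Real.sqrt ((p.1 - q.1) ^ 2 + (p.2 - q.2) ^ 2) ≤ R * d) →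
  ∀ k : ℕ, ((kEdges P k).card : ℝ) ≤ C * R ^ ((7 : ℝ) / 3 - 1 / 10 ^ 9)

/-- Result (iii): dense sets. -/
def StResIII : Prop := ∃ C : ℝ, 0 < C ∧ ∀ (P : Finset (ℝ × ℝ)) (α d : ℝ), 1 ≤ α → 0 < d →
  GenPos P → (∀ p ∈ P, ∀ q ∈ P, p ≠ q → d ≤ Real.sqrt ((p.1 - q.1) ^ 2 + (p.2 - q.2) ^ 2) ∧
    Real.sqrt ((p.1 - q.1) ^ 2 + (p.2 - q.2) ^ 2) ≤ α * d * Real.sqrt P.card) →
  ∀ k : ℕ, ((kEdges P k).card : ℝ) ≤
    C * α ^ ((7 : ℝ) / 3) * (P.card : ℝ) ^ ((7 : ℝ) / 6 - 1 / (2 * 10 ^ 9))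

end Pool.Agent.Work.MP_e17eac_co.DH
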