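import Pool.Agent.Work.MP_e17eac_co.Bd.B10
import Pool.Agent.Work.MP_e17eac_co.Bd.B08
import Pool.Agent.Work.MP_e17eac_co.Bd.B07
import Pool.Agent.Work.MP_e17eac_co.Bd.B12
import Pool.Agent.Work.MP_e17eac_co.Bd.B11
import Pool.Agent.Work.MP_e17eac_co.Bd.B09

/-!
# Assembly
-/

namespace Pool.Agent.Work.MP_e17eac_co.DH

theorem TInc : StInc := I_INC 

theorem TPos : StPos := I_POS 

theorem TTok : StTok := I_TOK TPos

theorem TMono : StMono := I_MONO TTok

theorem TPath : StPath := I_PATH TTok TMono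

theorem TMir : StMir := I_MIR 

theorem TIdx : StIdx := I_IDX 

theorem TLeq : StLeq := I_LEQ 

theorem TSand : StSand := I_SAND TPos TTok TMono TPath TMir TIdx TLeq

theorem TTouch : StTouch := I_TOUCH TPos TTok TMono TPath TMir TLeq

theorem TStart : StStart := I_START TPos TMono TPath TMir TIdx

theorem TSflat : StSflat := I_SFLAT TPos TTok TMono TPath TMir TIdx TLeq TSand TStart

theorem TLip : StLip := I_LIP TPos TTok TMono TPath TMir TLeq

theorem TFlux : StFlux := I_FLUX TMono

theorem TJump : StJump := I_JUMP TTok TMono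

theorem TSep : StSep := I_SEP 

theorem TCinj : StCinj := I_CINJ TTok TTouch TLeq

theorem TCcnt : StCcnt := I_CCNT TCinj

theorem TPlanar : StPlanar := I_PLANAR 

theorem TPl : StPl := I_PL TPlanar TLeq

theorem TCrl : StCrl := I_CRL TPl

theorem TDey : StDey := I_DEY TCrl TCcnt

theorem TDeyI : StDeyI := I_DEYI TDey TTok TMono

theorem TBall : StBall := I_BALL 

theorem TFan : StFan := I_FAN TPos TTok TLip TDeyI TLeq TBall TSep

theorem TReg : StReg := I_REG 

theorem TDcl : StDcl := I_DCL 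

theorem TCnt : StCnt := I_CNT 

theorem TRegEx : StRegEx := I_REGEX TReg TDcl TJump TSep TIdx TFlux

theorem TFlatX : StFlatX := I_FLATX 

theorem TFlat0 : StFlat0 := I_FLAT0 TSand TIdx

theorem TFlatS : StFlatS := I_FLATS TSflat TIdx

theorem TDrange : StDrange := I_DRANGE TJump TMono TIdx TTok

theorem TCord : StCord := I_CORD TSep

theorem TStar : StStar := I_STAR TCord TFlat0 TFlatS TFlatX TCnt TInc TDrange

theorem TFlux1 : StFlux1 := I_FLUX1 TFlux TSep TIdx

theorem TDey2 : StDey2 := I_DEY2 TDey TCnt TSep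

theorem TFar : StFar := I_FAR TCnt TFlatX TSep TInc

theorem TContact : StContact := I_CONTACT 

theorem TPop : StPop := I_POP 

theorem TBrL : StBrL := I_BRL TContact TPop TCnt TSand TJump TLeq TIdx TInc

theorem TBrT : StBrT := I_BRT TContact TPop TCnt TSand TTouch TLeq TIdx TInc

theorem TBrS : StBrS := I_BRS TContact TPop TCnt TStart TFlux TSep TLeq TIdx TInc TPos

theorem TSlot : StSlot := I_SLOT TCnt TFlat0 TFlatX TMono TDrange TTok TIdx TSep TInc

theorem TCrit : StCrit := I_CRIT 

theorem TPig : StPig := I_PIG TSep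

theorem TTerm : StTerm := I_TERM TLip TLeq TSep TBall

theorem TChain : StChain := I_CHAIN TFan TDeyI TBall TSep

theorem TDesc : StDesc := I_DESC TCrit TPig TTerm TChain

theorem TResc : StResc := I_RESC 

theorem TSweep : StSweep := I_SWEEP 

theorem TExp : StExp := I_EXP 

theorem TA0 : StA0 := I_A0 TDrange TInc TSep

theorem TA1 : StA1 := I_A1 TInc TSep TFlux1 TDrange TA0

theorem TA2 : StA2 := I_A2 TDey2 TInc TSep TA0 TA1

theorem TA3 : StA3 := I_A3 TStar TA0

theorem TA4 : StA4 := I_A4 TFar TInc TA0 TA1 TA2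

theorem TA5 : StA5 := I_A5 TA4 TA0 TFlat0 TBrT TBrL TFlatX

theorem TA6 : StA6 := I_A6 TA4 TA0 TA1 TA2 TBrS

theorem TA7 : StA7 := I_A7 TSlot TA0

theorem TAsm : StAsm := I_ASM TA0 TA1 TA2 TA3 TA5 TA6 TA7 TExp TInc

theorem TAsy : StAsy := I_ASY 

theorem TMid : StMid := I_MID TRegEx TDeyI TBall TSep

theorem TTriv : StTriv := I_TRIV TSep

theorem TMainL : StMainL := I_MAINL TDesc TResc TMid TAsm TAsy TDeyI TSep

theorem TMain : StMain := I_MAIN TMainL TTriv

theorem TLev : StLev := I_LEV TSweep TMain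

theorem TResI : StResI := I_RESI TLev

theorem TWin : StWin := I_WIN TLev

theorem TRot : StRot := I_ROT 

theorem TDir : StDir := I_DIR 

theorem TIIo : StIIo := I_IIO TWin TRot TDir

theorem TResII : StResII := I_RESII TIIo

theorem TResIII : StResIII := I_RESIII TResII

end Pool.Agent.Work.MP_e17eac_co.DH
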